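import Pool.Agent.Run7.h969.GG.Defs
import Pool.Agent.Run7.h782.GD.Bas

/-!
The universal gap, piece Q1 (helper835): decomposition of a finite field into the Reynolds stresses
of shear profiles (for the project of helper782 and helper969).
-/

set_option autoImplicit false

open MeasureTheory Set Filter Topology
open scoped ContDiff ComplexConjugate Pointwise

namespace Pool.Agent.Run7.h835.GG

open H459R3.NS Pool.Agent.Run7.h782 Pool.Agent.Run7.h782.GD Pool.Agent.Run7.h969.GG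

/-! ### The shear directions -/

/-- The constant parts of the profiles. -/
def vA : Fin 5 → C3 := ![![1, 0, 0], ![1, 0, 0], ![0, 1, 0], ![1, 1, 0], ![1, 0, 1]]

/-- The directions of the variable parts of the profiles. -/
def vB : Fin 5 → C3 := ![![0, 1, 0], ![0, 0, 1], ![0, 0, 1], ![1, -1, 0], ![1, 0, -1]]

/-- The frequencies of the waves. -/
def nn : Fin 5 → K3 := ![![0, 0, 1], ![0, 1, 0], ![1, 0, 0], ![0, 0, 1], ![0, 1, 0]]

theorem nn_ne (i : Fin 5) : nn i ≠ 0 := by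
  revert i
  decide

theorem norm_vA (i : Fin 5) : ‖vA i‖ ≤ 1 := by
  rw [pi_norm_le_iff_of_nonneg zero_le_one]
  intro j
  fin_cases i <;> fin_cases j <;> simp [vA]

theorem norm_vB (i : Fin 5) : ‖vB i‖ ≤ 1 := by
  rw [pi_norm_le_iff_of_nonneg zero_le_one]
  intro j
  fin_cases i <;> fin_cases j <;> simp [vB]

theorem kd_vA (i : Fin 5) : kd (nn i) (vA i) = 0 := by
  fin_cases i <;> simp [kd, vA, nn, Fin.sum_univ_three]

theorem kd_vB (i : Fin 5) : kd (nn i) (vB i) = 0 := by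
  fin_cases i <;> simp [kd, vB, nn, Fin.sum_univ_three]

theorem conj_vA (i : Fin 5) (j : Fin 3) : conj (vA i j) = vA i j := by
  fin_cases i <;> fin_cases j <;> simp [vA]

theorem conj_vB (i : Fin 5) (j : Fin 3) : conj (vB i j) = vB i j := by
  fin_cases i <;> fin_cases j <;> simp [vB]

/-- The stress. -/
noncomputable def Mz (z : Cf) (k : K3) (a b : Fin 3) : ℂ :=
  (z k a * (k b : ℂ) + (k a : ℂ) * z k b) / (2 * Real.pi * Complex.I * (GD.sq k : ℂ))

/-- The coefficients of the stress. -/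
noncomputable def rho (z : Cf) (i : Fin 5) (k : K3) : ℂ :=
  (![Mz z k 0 1, Mz z k 0 2, Mz z k 1 2, -(Mz z k 1 1) / 2, -(Mz z k 2 2) / 2] : Fin 5 → ℂ) i

theorem norm_Mz_le (z : Cf) {k : K3} (hk : k ≠ 0) (a b : Fin 3) :
    ‖Mz z k a b‖ ≤ ‖z k‖ / len k := by
  have hl := len_pos hk
  have hpi := Real.pi_gt_three
  have e1 : ‖(2 * Real.pi * Complex.I * (GD.sq k : ℂ) : ℂ)‖ = 2 * Real.pi * len k ^ 2 := by
    rw [norm_mul, norm_mul, norm_mul, Complex.norm_I, Complex.norm_real, Complex.norm_real,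
      Real.norm_of_nonneg (by positivity), Real.norm_of_nonneg (sq_nonneg' k), len_sq]
    norm_num
  have hc : ∀ j, ‖((k j : ℤ) : ℂ)‖ ≤ len k := fun j => by
    rw [Complex.norm_intCast]
    exact abs_le_len k j
  have hz : ∀ j, ‖z k j‖ ≤ ‖z k‖ := fun j => norm_le_pi_norm (z k) j
  rw [Mz, norm_div, e1, div_le_div_iff₀ (by positivity) hl]
  have h1 : ‖z k a * (k b : ℂ) + (k a : ℂ) * z k b‖ ≤ 2 * (‖z k‖ * len k) := by
    refine (norm_add_le _ _).trans ?_
    rw [norm_mul, norm_mul]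
    have h2 : ‖z k a‖ * ‖((k b : ℤ) : ℂ)‖ ≤ ‖z k‖ * len k :=
      mul_le_mul (hz a) (hc b) (norm_nonneg _) (norm_nonneg _)
    have h3 : ‖((k a : ℤ) : ℂ)‖ * ‖z k b‖ ≤ len k * ‖z k‖ :=
      mul_le_mul (hc a) (hz b) (norm_nonneg _) hl.le
    linarith
  have h4 : 0 ≤ ‖z k‖ * len k ^ 2 := by positivity
  calc ‖z k a * (k b : ℂ) + (k a : ℂ) * z k b‖ * len k ≤ 2 * (‖z k‖ * len k) * len k :=
        mul_le_mul_of_nonneg_right h1 hl.le
    _ = 2 * (‖z k‖ * len k ^ 2) := by ring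
    _ ≤ 2 * Real.pi * (‖z k‖ * len k ^ 2) := by nlinarith
    _ = _ := by ring

theorem norm_rho_le (z : Cf) (i : Fin 5) {k : K3} (hk : k ≠ 0) :
    ‖rho z i k‖ ≤ ‖z k‖ / len k := by
  have h := norm_Mz_le z hk
  have h2 : ∀ a b, ‖-(Mz z k a b) / 2‖ ≤ ‖z k‖ / len k := fun a b => by
    rw [norm_div, norm_neg]
    have h3 := norm_nonneg (Mz z k a b)
    have h4 := h a b
    have : ‖(2 : ℂ)‖ = 2 := by norm_num
    rw [this]
    linarith
  fin_cases i
  · exact h 0 1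
  · exact h 0 2
  · exact h 1 2
  · exact h2 1 1
  · exact h2 2 2

theorem Mz_neg {z : Cf} (hH : Herm z) (k : K3) (a b : Fin 3) :
    Mz z (-k) a b = conj (Mz z k a b) := by
  rw [Mz, Mz, hH k a, hH k b, sq_neg]
  simp only [Pi.neg_apply, Int.cast_neg, map_div₀, map_add, map_mul, Complex.conj_I,
    Complex.conj_ofReal, map_ofNat, map_intCast]
  rw [← neg_div_neg_eq]
  congr 1 <;> ring

theorem rho_neg {z : Cf} (hH : Herm z) (i : Fin 5) (k : K3) :
    rho z i (-k) = conj (rho z i k) := by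
  have h := Mz_neg hH k
  fin_cases i
  · exact h 0 1
  · exact h 0 2
  · exact h 1 2
  · show -(Mz z (-k) 1 1) / 2 = conj (-(Mz z k 1 1) / 2)
    rw [h]
    simp only [map_div₀, map_neg, map_ofNat]
  · show -(Mz z (-k) 2 2) / 2 = conj (-(Mz z k 2 2) / 2)
    rw [h]
    simp only [map_div₀, map_neg, map_ofNat]

theorem rho_zero {z : Cf} {k : K3} (h : z k = 0) (i : Fin 5) : rho z i k = 0 := by
  have h1 : ∀ a b, Mz z k a b = 0 := fun a b => by
    rw [Mz, h]
    simp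
  fin_cases i
  · exact h1 0 1
  · exact h1 0 2
  · exact h1 1 2
  · show -(Mz z k 1 1) / 2 = 0
    rw [h1]
    simp
  · show -(Mz z k 2 2) / 2 = 0
    rw [h1]
    simp

/-- The algebraic identity. -/
theorem stress {z : Cf} (hD : Dv z) {k : K3} (hk : k ≠ 0) :
    ∑ i, (kd k (vA i) • (rho z i k • vB i) + kd k (rho z i k • vB i) • vA i)
      = (2 * Real.pi * Complex.I : ℂ)⁻¹ • z k := by
  have hs : (GD.sq k : ℂ) ≠ 0 := by
    exact_mod_cast (sq_pos' hk).ne'
  have hp : (2 * Real.pi * Complex.I : ℂ) ≠ 0 := by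
    simp [Real.pi_ne_zero]
  have hsq : (GD.sq k : ℂ) = (k 0 : ℂ) ^ 2 + (k 1 : ℂ) ^ 2 + (k 2 : ℂ) ^ 2 := by
    rw [GD.sq, Fin.sum_univ_three]
    push_cast
    ring
  have hd : (k 0 : ℂ) * z k 0 + (k 1 : ℂ) * z k 1 + (k 2 : ℂ) * z k 2 = 0 := by
    have := hD k
    rwa [kd, Fin.sum_univ_three] at this
  have hM : ∀ a b, Mz z k a b
      = (2 * Real.pi * Complex.I : ℂ)⁻¹ * ((z k a * (k b : ℂ) + (k a : ℂ) * z k b) / (GD.sq k : ℂ)) := by
    intro a b
    rw [Mz, div_mul_eq_div_div, ← div_eq_inv_mul, div_right_comm]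
  set c : ℂ := (2 * Real.pi * Complex.I : ℂ)⁻¹ with hc
  have hr0 : rho z 0 k = Mz z k 0 1 := rfl
  have hr1 : rho z 1 k = Mz z k 0 2 := rfl
  have hr2 : rho z 2 k = Mz z k 1 2 := rfl
  have hr3 : rho z 3 k = -(Mz z k 1 1) / 2 := rfl
  have hr4 : rho z 4 k = -(Mz z k 2 2) / 2 := rfl
  rw [Fin.sum_univ_five, hr0, hr1, hr2, hr3, hr4]
  simp only [hM]
  funext j
  fin_cases j
  · simp only [kd, vA, vB, Fin.sum_univ_three, Pi.add_apply, Pi.smul_apply, smul_eq_mul]
    simp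
    field_simp
    rw [hsq]
    linear_combination (-2 * (k 0 : ℂ) * c) * hd
  · simp only [kd, vA, vB, Fin.sum_univ_three, Pi.add_apply, Pi.smul_apply, smul_eq_mul]
    simp
    field_simp
    rw [hsq]
    linear_combination (2 * (k 1 : ℂ) * c) * hd
  · simp only [kd, vA, vB, Fin.sum_univ_three, Pi.add_apply, Pi.smul_apply, smul_eq_mul]
    simp
    field_simp
    rw [hsq]
    linear_combination (2 * (k 2 : ℂ) * c) * hd

/-! ### The profiles -/

/-- The variable part of a profile. -/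
noncomputable def bet (z : Cf) (i : Fin 5) : Cf := fun k => rho z i k • vB i

theorem bet_zero {z : Cf} {k : K3} (h : z k = 0) (i : Fin 5) : bet z i k = 0 := by
  rw [bet, rho_zero h, zero_smul]

theorem bet_supp {Z : Finset K3} {z : Cf} (hZ : ∀ k ∉ Z, z k = 0) (i : Fin 5) :
    ∀ k ∉ Z, bet z i k = 0 := fun k hk => bet_zero (hZ k hk) i

theorem norm_bet_le (z : Cf) (i : Fin 5) {k : K3} (hk : k ≠ 0) :
    ‖bet z i k‖ ≤ ‖z k‖ / len k := by
  rw [bet, norm_smul]
  have h1 := norm_rho_le z i hk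
  have h2 := norm_vB i
  have h3 := norm_nonneg (rho z i k)
  have h4 := norm_nonneg (vB i)
  nlinarith

theorem bet_herm {z : Cf} (hH : Herm z) (i : Fin 5) : Herm (bet z i) := by
  intro k j
  show rho z i (-k) * vB i j = conj (rho z i k * vB i j)
  rw [rho_neg hH, map_mul, conj_vB]

theorem herm_sg0 (i : Fin 5) : Herm (sg 0 (vA i)) := by
  intro k j
  by_cases hk : k = 0
  · subst hk
    rw [neg_zero, sg_same, conj_vA]
  · rw [sg_ne hk, sg_ne (neg_ne_zero.2 hk)]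
    simp

theorem Herm.add {a b : Cf} (ha : Herm a) (hb : Herm b) : Herm (a + b) := by
  intro k i
  show a (-k) i + b (-k) i = conj (a k i + b k i)
  rw [ha, hb, map_add]

theorem Herm.smul {a : Cf} (ha : Herm a) (c : ℝ) : Herm ((c : ℂ) • a) := by
  intro k i
  show (c : ℂ) * a (-k) i = conj ((c : ℂ) * a k i)
  rw [ha, map_mul, Complex.conj_ofReal]

theorem Herm.sub {a b : Cf} (ha : Herm a) (hb : Herm b) : Herm (a - b) := by
  intro k i
  show a (-k) i - b (-k) i = conj (a k i - b k i)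
  rw [ha, hb, map_sub]

theorem Herm.sum {ι : Type*} {s : Finset ι} {a : ι → Cf} (ha : ∀ i ∈ s, Herm (a i)) :
    Herm (∑ i ∈ s, a i) := by
  intro k j
  rw [Finset.sum_apply, Finset.sum_apply, Finset.sum_apply, Finset.sum_apply, map_sum]
  exact Finset.sum_congr rfl fun i hi => ha i hi k j

theorem kd_sub (k : K3) (v w : C3) : kd k (v - w) = kd k v - kd k w := by
  simp only [kd, Pi.sub_apply, mul_sub, Finset.sum_sub_distrib]

theorem kd_sum {ι : Type*} (k : K3) (s : Finset ι) (v : ι → C3) :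
    kd k (∑ i ∈ s, v i) = ∑ i ∈ s, kd k (v i) := by
  simp only [kd, Finset.sum_apply, Finset.mul_sum]
  exact Finset.sum_comm

theorem Dv.sub {a b : Cf} (ha : Dv a) (hb : Dv b) : Dv (a - b) := fun k => by
  rw [Pi.sub_apply, kd_sub, ha, hb, sub_zero]

theorem Dv.sum {ι : Type*} {s : Finset ι} {a : ι → Cf} (ha : ∀ i ∈ s, Dv (a i)) :
    Dv (∑ i ∈ s, a i) := fun k => by
  rw [Finset.sum_apply, kd_sum]
  exact Finset.sum_eq_zero fun i hi => ha i hi k

theorem prj_sum {ι : Type*} (k : K3) (s : Finset ι) (v : ι → C3) :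
    prj k (∑ i ∈ s, v i) = ∑ i ∈ s, prj k (v i) := map_sum (prjL k) v s

theorem nl_sg_left (a : C3) (b : Cf) (k : K3) :
    nl (sg 0 a) b k = (2 * Real.pi * Complex.I : ℂ) • prj k (kd k a • b k) := by
  rw [nl, tsum_eq_single (0 : K3)]
  · rw [sg_same, sub_zero]
  · intro p hp
    rw [sg_ne hp, kd_zero_right, zero_smul]

theorem nl_sg_right (a : C3) (b : Cf) (k : K3) :
    nl b (sg 0 a) k = (2 * Real.pi * Complex.I : ℂ) • prj k (kd k (b k) • a) := by
  rw [nl, tsum_eq_single k]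
  · rw [sub_self, sg_same]
  · intro p hp
    rw [sg_ne (fun h => hp (sub_eq_zero.1 h).symm), smul_zero]

theorem nl_sg_self (a : C3) : nl (sg 0 a) (sg 0 a) = 0 := by
  rw [nl_sg, add_zero, kd_zero_left, zero_smul, prj_zero, smul_zero]
  funext k
  by_cases hk : k = 0
  · rw [hk, sg_same]; rfl
  · rw [sg_ne hk]; rfl

theorem nl_supp {Z : Finset K3} {b : Cf} (hb : ∀ k ∉ Z, b k = 0) {k : K3} (hk : k ∉ Z + Z) :
    nl b b k = 0 := by
  have h : ∀ p, kd k (b p) • b (k - p) = 0 := by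
    intro p
    by_cases hp : p ∈ Z
    · have : k - p ∉ Z := fun h => hk (by
        have := Finset.add_mem_add hp h
        rwa [add_sub_cancel] at this)
      rw [hb _ this, smul_zero]
    · rw [hb _ hp, kd_zero_right, zero_smul]
  rw [nl, tsum_congr h, tsum_zero, prj_zero, smul_zero]

/-- The profile. -/
noncomputable def pf (z : Cf) (A : ℝ) (i : Fin 5) : Cf :=
  (A : ℂ) • sg 0 (vA i) + ((A⁻¹ : ℝ) : ℂ) • bet z i

theorem nl_pf {Z : Finset K3} {z : Cf} (hZ : ∀ k ∉ Z, z k = 0) {A : ℝ} (hA : A ≠ 0) (i : Fin 5) :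
    nl (pf z A i) (pf z A i) = nl (sg 0 (vA i)) (bet z i) + nl (bet z i) (sg 0 (vA i))
      + (((A⁻¹) ^ 2 : ℝ) : ℂ) • nl (bet z i) (bet z i) := by
  have l1 : L1 (sg 0 (vA i)) := sg_L1 0 (vA i)
  have l2 : L1 (bet z i) := L1.of_supp (bet_supp hZ i)
  have l3 := l1.smul (A : ℂ)
  have l4 := l2.smul ((A⁻¹ : ℝ) : ℂ)
  rw [pf, nl_add_left l3 l4 (l3.add l4), nl_add_right l3 l3 l4, nl_add_right l4 l3 l4]
  simp only [nl_smul_left, nl_smul_right, nl_sg_self, smul_zero, zero_add, smul_smul]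
  have h1 : (A : ℂ) * ((A⁻¹ : ℝ) : ℂ) = 1 := by
    rw [← Complex.ofReal_mul, mul_inv_cancel₀ hA, Complex.ofReal_one]
  have h2 : ((A⁻¹ : ℝ) : ℂ) * (A : ℂ) = 1 := by rw [mul_comm, h1]
  have h3 : ((A⁻¹ : ℝ) : ℂ) * ((A⁻¹ : ℝ) : ℂ) = (((A⁻¹) ^ 2 : ℝ) : ℂ) := by
    rw [← Complex.ofReal_mul, pow_two]
  rw [h1, h2, h3, one_smul, one_smul]
  abel

theorem sum_main {Z : Finset K3} {z : Cf} (h0 : (0 : K3) ∉ Z) (hZ : ∀ k ∉ Z, z k = 0)
    (hD : Dv z) :
    ∑ i, (nl (sg 0 (vA i)) (bet z i) + nl (bet z i) (sg 0 (vA i))) = z := by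
  funext k
  rw [Finset.sum_apply]
  have h1 : ∀ i, (nl (sg 0 (vA i)) (bet z i) + nl (bet z i) (sg 0 (vA i))) k
      = (2 * Real.pi * Complex.I : ℂ) • prj k (kd k (vA i) • bet z i k + kd k (bet z i k) • vA i) := by
    intro i
    rw [Pi.add_apply, nl_sg_left, nl_sg_right, ← smul_add, ← prj_add]
  rw [Finset.sum_congr rfl fun i _ => h1 i, ← Finset.smul_sum, ← prj_sum]
  by_cases hk : k = 0
  · subst hk
    have : ∀ i, kd 0 (vA i) • bet z i 0 + kd 0 (bet z i 0) • vA i = 0 := fun i => by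
      rw [kd_zero_left, kd_zero_left, zero_smul, zero_smul, add_zero]
    rw [Finset.sum_congr rfl fun i _ => this i, Finset.sum_const_zero, prj_zero, smul_zero, hZ 0 h0]
  have hp : (2 * Real.pi * Complex.I : ℂ) ≠ 0 := by
    simp [Real.pi_ne_zero]
  have h2 := stress hD hk
  have h3 : ∑ i, (kd k (vA i) • bet z i k + kd k (bet z i k) • vA i)
      = (2 * Real.pi * Complex.I : ℂ)⁻¹ • z k := h2
  rw [h3, prj_smul, prj_of_kd_eq_zero (hD k), smul_smul, mul_inv_cancel₀ hp, one_smul]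

theorem rem_eq {Z : Finset K3} {z : Cf} (h0 : (0 : K3) ∉ Z) (hZ : ∀ k ∉ Z, z k = 0)
    (hD : Dv z) {A : ℝ} (hA : A ≠ 0) :
    z - ∑ i, nl (pf z A i) (pf z A i)
      = -((((A⁻¹) ^ 2 : ℝ) : ℂ) • ∑ i, nl (bet z i) (bet z i)) := by
  have h1 : ∑ i, nl (pf z A i) (pf z A i) = z + (((A⁻¹) ^ 2 : ℝ) : ℂ) • ∑ i, nl (bet z i) (bet z i) := by
    rw [Finset.sum_congr rfl fun i _ => nl_pf hZ hA i, Finset.sum_add_distrib, sum_main h0 hZ hD,
      Finset.smul_sum]
  rw [h1]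
  abel

/-- The estimate of the remainder. -/
theorem sum_nl_bet {Z : Finset K3} {z : Cf} (h0 : (0 : K3) ∉ Z) (hZ : ∀ k ∉ Z, z k = 0)
    (i : Fin 5) (B : Finset K3) :
    ∑ k ∈ B, ‖nl (bet z i) (bet z i) k‖ / len k
      ≤ 24 * Real.pi * (∑ k ∈ Z, ‖z k‖ / len k) ^ 2 := by
  have l2 : L1 (bet z i) := L1.of_supp (bet_supp hZ i)
  have h1 : ∑' k, ‖bet z i k‖ ≤ ∑ k ∈ Z, ‖z k‖ / len k := by
    rw [tsum_eq_sum (s := Z) fun k hk => by rw [bet_supp hZ i k hk, norm_zero]]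
    exact Finset.sum_le_sum fun k hk => norm_bet_le z i fun h => h0 (h ▸ hk)
  have h2 : 0 ≤ ∑' k, ‖bet z i k‖ := tsum_nonneg fun k => norm_nonneg _
  have l3 : Summable fun k => Real.exp (0 * len k) * ‖bet z i k‖ := by
    simpa using (show Summable fun k => ‖bet z i k‖ from l2)
  have h3 := sum_nl_le (μ := 0) le_rfl l3 l3 B
  simp only [zero_mul, Real.exp_zero, one_mul] at h3
  refine h3.trans ?_
  have hpi := Real.pi_pos
  calc 24 * Real.pi * (∑' k, ‖bet z i k‖) * ∑' k, ‖bet z i k‖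
      = 24 * Real.pi * (∑' k, ‖bet z i k‖) ^ 2 := by ring
    _ ≤ _ := by gcongr

/-- The constant of one round. -/
noncomputable def K0 : ℝ := 10 * Real.sqrt (480 * Real.pi)

theorem round {Z : Finset K3} {z : Cf} (h0 : (0 : K3) ∉ Z) (hZ : ∀ k ∉ Z, z k = 0)
    (hH : Herm z) (hD : Dv z) {X : ℝ} (hX : X = ∑ k ∈ Z, ‖z k‖ / len k) (hX0 : 0 < X) :
    ∃ s : Fin 5 → Cf, (∀ i, ∀ p ∉ insert 0 Z, s i p = 0) ∧ (∀ i, Herm (s i)) ∧
      (∀ i p, kd (nn i) (s i p) = 0) ∧
      ∑ i, ∑ p ∈ insert 0 Z, ‖s i p‖ ≤ K0 * Real.sqrt X ∧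
      (∀ k ∉ (Z + Z).erase 0, (z - ∑ i, nl (s i) (s i)) k = 0) ∧
      ∑ k ∈ (Z + Z).erase 0, ‖(z - ∑ i, nl (s i) (s i)) k‖ / len k ≤ X / 4 := by
  have hpi := Real.pi_gt_three
  set L : ℝ := 480 * Real.pi with hL
  have hL0 : 1 ≤ L := by rw [hL]; linarith
  set A : ℝ := Real.sqrt (L * X) with hA
  have hLX : 0 < L * X := by positivity
  have hA0 : 0 < A := Real.sqrt_pos.2 hLX
  have hA2 : A ^ 2 = L * X := Real.sq_sqrt hLX.le
  have hz0 : z 0 = 0 := hZ 0 h0
  refine ⟨pf z A, ?_, ?_, ?_, ?_, ?_, ?_⟩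
  · intro i p hp
    rw [Finset.mem_insert, not_or] at hp
    show (A : ℂ) • sg 0 (vA i) p + ((A⁻¹ : ℝ) : ℂ) • bet z i p = 0
    rw [sg_ne hp.1, bet_supp hZ i p hp.2, smul_zero, smul_zero, add_zero]
  · intro i
    exact Herm.add (Herm.smul (herm_sg0 i) A) (Herm.smul (bet_herm hH i) A⁻¹)
  · intro i p
    show kd (nn i) ((A : ℂ) • sg 0 (vA i) p + ((A⁻¹ : ℝ) : ℂ) • bet z i p) = 0
    rw [kd_add, kd_smul, kd_smul, bet, kd_smul, kd_vB, mul_zero, mul_zero, add_zero]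
    by_cases hp : p = 0
    · rw [hp, sg_same, kd_vA, mul_zero]
    · rw [sg_ne hp, kd_zero_right, mul_zero]
  · have h1 : ∀ i, ∑ p ∈ insert 0 Z, ‖pf z A i p‖ ≤ A + A⁻¹ * X := by
      intro i
      rw [Finset.sum_insert h0]
      refine add_le_add ?_ ?_
      · have : pf z A i 0 = (A : ℂ) • vA i := by
          show (A : ℂ) • sg 0 (vA i) 0 + ((A⁻¹ : ℝ) : ℂ) • bet z i 0 = _
          rw [sg_same, bet_zero hz0, smul_zero, add_zero]
        rw [this, norm_smul, Complex.norm_real, Real.norm_of_nonneg hA0.le]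
        exact mul_le_of_le_one_right hA0.le (norm_vA i)
      · rw [hX, Finset.mul_sum]
        refine Finset.sum_le_sum fun p hp => ?_
        have hp0 : p ≠ 0 := fun h => h0 (h ▸ hp)
        have : pf z A i p = ((A⁻¹ : ℝ) : ℂ) • bet z i p := by
          show (A : ℂ) • sg 0 (vA i) p + ((A⁻¹ : ℝ) : ℂ) • bet z i p = _
          rw [sg_ne hp0, smul_zero, zero_add]
        rw [this, norm_smul, Complex.norm_real, Real.norm_of_nonneg (by positivity)]
        exact mul_le_mul_of_nonneg_left (norm_bet_le z i hp0) (by positivity)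
    have h2 : A + A⁻¹ * X ≤ 2 * Real.sqrt L * Real.sqrt X := by
      have e1 : A = Real.sqrt L * Real.sqrt X := by rw [hA, Real.sqrt_mul (by linarith)]
      have e2 : A⁻¹ * X ≤ A := by
        rw [inv_mul_le_iff₀ hA0, ← pow_two, hA2]
        exact le_mul_of_one_le_left hX0.le hL0
      calc A + A⁻¹ * X ≤ A + A := by linarith
        _ = 2 * Real.sqrt L * Real.sqrt X := by rw [e1]; ring
    calc ∑ i, ∑ p ∈ insert 0 Z, ‖pf z A i p‖ ≤ ∑ _i : Fin 5, (A + A⁻¹ * X) :=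
          Finset.sum_le_sum fun i _ => h1 i
      _ = 5 * (A + A⁻¹ * X) := by
          rw [Finset.sum_const, Finset.card_univ, Fintype.card_fin, nsmul_eq_mul]
          norm_num
      _ ≤ 5 * (2 * Real.sqrt L * Real.sqrt X) := by linarith
      _ = K0 * Real.sqrt X := by rw [K0]; ring
  · intro k hk
    rw [rem_eq h0 hZ hD hA0.ne']
    rw [Finset.mem_erase, not_and_or, not_not] at hk
    have h1 : ∀ i, nl (bet z i) (bet z i) k = 0 := by
      intro i
      rcases hk with hk | hk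
      · rw [hk, nl_zero_mode]
      · exact nl_supp (bet_supp hZ i) hk
    rw [Pi.neg_apply, Pi.smul_apply, Finset.sum_apply, Finset.sum_congr rfl fun i _ => h1 i,
      Finset.sum_const_zero, smul_zero, neg_zero]
  · rw [rem_eq h0 hZ hD hA0.ne']
    have h1 : ∀ k, ‖(-((((A⁻¹) ^ 2 : ℝ) : ℂ) • ∑ i, nl (bet z i) (bet z i))) k‖ / len k
        ≤ (A⁻¹) ^ 2 * ∑ i, ‖nl (bet z i) (bet z i) k‖ / len k := by
      intro k
      rw [Pi.neg_apply, norm_neg, Pi.smul_apply, norm_smul, Complex.norm_real,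
        Real.norm_of_nonneg (by positivity), mul_div_assoc]
      refine mul_le_mul_of_nonneg_left ?_ (by positivity)
      rw [← Finset.sum_div, Finset.sum_apply]
      exact div_le_div_of_nonneg_right (norm_sum_le _ _) (len_nonneg k)
    calc ∑ k ∈ (Z + Z).erase 0, ‖(-((((A⁻¹) ^ 2 : ℝ) : ℂ) • ∑ i, nl (bet z i) (bet z i))) k‖ / len k
        ≤ ∑ k ∈ (Z + Z).erase 0, (A⁻¹) ^ 2 * ∑ i, ‖nl (bet z i) (bet z i) k‖ / len k :=
          Finset.sum_le_sum fun k _ => h1 k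
      _ = (A⁻¹) ^ 2 * ∑ i, ∑ k ∈ (Z + Z).erase 0, ‖nl (bet z i) (bet z i) k‖ / len k := by
          rw [← Finset.mul_sum, Finset.sum_comm]
      _ ≤ (A⁻¹) ^ 2 * ∑ _i : Fin 5, 24 * Real.pi * X ^ 2 := by
          refine mul_le_mul_of_nonneg_left (Finset.sum_le_sum fun i _ => ?_) (by positivity)
          rw [hX]
          exact sum_nl_bet h0 hZ i _
      _ = X / 4 := by
          rw [Finset.sum_const, Finset.card_univ, Fintype.card_fin, nsmul_eq_mul, inv_pow, hA2, hL]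
          field_simp
          norm_num

/-- Finitely many rounds. -/
theorem rounds (m : ℕ) : ∀ (Z : Finset K3) (z : Cf), (0 : K3) ∉ Z → (∀ k ∉ Z, z k = 0) →
    Herm z → Dv z → ∀ X : ℝ, X = ∑ k ∈ Z, ‖z k‖ / len k →
    ∃ (ι : Type) (_ : Fintype ι) (n : ι → K3) (s : ι → Cf) (P Z' : Finset K3),
      (∀ j, n j ≠ 0) ∧ (∀ j, ∀ p ∉ P, s j p = 0) ∧ (∀ j, Herm (s j)) ∧
      (∀ j p, kd (n j) (s j p) = 0) ∧
      (∑ j, ∑ p ∈ P, ‖s j p‖ ≤ 2 * K0 * Real.sqrt X) ∧
      (∀ k ∉ Z', (z - ∑ j, nl (s j) (s j)) k = 0) ∧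
      ∑ k ∈ Z', ‖(z - ∑ j, nl (s j) (s j)) k‖ / len k ≤ X / 4 ^ m := by
  have hK0 : 0 ≤ K0 := by unfold K0; positivity
  induction m with
  | zero =>
      intro Z z h0 hZ hH hD X hX
      refine ⟨Empty, inferInstance, Empty.elim, Empty.elim, ∅, Z, fun j => j.elim, fun j => j.elim,
        fun j => j.elim, fun j => j.elim, ?_, ?_, ?_⟩
      · rw [Finset.univ_eq_empty, Finset.sum_empty]
        positivity
      · intro k hk
        rw [Finset.univ_eq_empty, Finset.sum_empty, sub_zero]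
        exact hZ k hk
      · rw [Finset.univ_eq_empty, Finset.sum_empty, sub_zero, pow_zero, div_one, hX]
  | succ m ih =>
      intro Z z h0 hZ hH hD X hX
      have hXn : 0 ≤ X := by
        rw [hX]
        exact Finset.sum_nonneg fun k _ => div_nonneg (norm_nonneg _) (len_nonneg _)
      rcases hXn.eq_or_lt with hX0 | hX0
      · refine ⟨Empty, inferInstance, Empty.elim, Empty.elim, ∅, Z, fun j => j.elim,
          fun j => j.elim, fun j => j.elim, fun j => j.elim, ?_, ?_, ?_⟩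
        · rw [Finset.univ_eq_empty, Finset.sum_empty]
          positivity
        · intro k hk
          rw [Finset.univ_eq_empty, Finset.sum_empty, sub_zero]
          exact hZ k hk
        · rw [Finset.univ_eq_empty, Finset.sum_empty, sub_zero, ← hX, ← hX0, zero_div]
      obtain ⟨s₁, a1, a2, a3, a4, a5, a6⟩ := round h0 hZ hH hD hX hX0
      set z₁ : Cf := z - ∑ i, nl (s₁ i) (s₁ i) with hz₁
      have hH₁ : Herm z₁ := Herm.sub hH (Herm.sum fun i _ => herm_nl (a2 i) (a2 i))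
      have hD₁ : Dv z₁ := Dv.sub hD (Dv.sum fun i _ => dv_nl _ _)
      obtain ⟨ι, hι, n, s, P, Z', b1, b2, b3, b4, b5, b6, b7⟩ :=
        ih ((Z + Z).erase 0) z₁ (Finset.notMem_erase _ _) a5 hH₁ hD₁ _ rfl
      set X₁ : ℝ := ∑ k ∈ (Z + Z).erase 0, ‖z₁ k‖ / len k with hX₁
      have hsq : Real.sqrt X₁ ≤ Real.sqrt X / 2 := by
        have h4 : Real.sqrt (X / 4) = Real.sqrt X / 2 := by
          rw [Real.sqrt_div hXn]
          congr 1
          rw [show (4 : ℝ) = 2 ^ 2 by norm_num, Real.sqrt_sq (by norm_num)]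
        rw [← h4]
        exact Real.sqrt_le_sqrt a6
      have hsum : z - ∑ j : Fin 5 ⊕ ι, nl (Sum.elim s₁ s j) (Sum.elim s₁ s j)
          = z₁ - ∑ j, nl (s j) (s j) := by
        rw [Fintype.sum_sum_type]
        simp only [Sum.elim_inl, Sum.elim_inr]
        rw [hz₁]
        abel
      refine ⟨Fin 5 ⊕ ι, inferInstance, Sum.elim nn n, Sum.elim s₁ s, insert 0 Z ∪ P, Z', ?_, ?_,
        ?_, ?_, ?_, ?_, ?_⟩
      · rintro (j | j)
        · exact nn_ne j
        · exact b1 j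
      · rintro (j | j) p hp
        · exact a1 j p fun h => hp (Finset.mem_union_left _ h)
        · exact b2 j p fun h => hp (Finset.mem_union_right _ h)
      · rintro (j | j)
        · exact a2 j
        · exact b3 j
      · rintro (j | j) p
        · exact a3 j p
        · exact b4 j p
      · rw [Fintype.sum_sum_type]
        simp only [Sum.elim_inl, Sum.elim_inr]
        have c1 : ∀ j, ∑ p ∈ insert 0 Z ∪ P, ‖s₁ j p‖ = ∑ p ∈ insert 0 Z, ‖s₁ j p‖ := fun j =>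
          (Finset.sum_subset Finset.subset_union_left fun p _ hp => by
            rw [a1 j p hp, norm_zero]).symm
        have c2 : ∀ j, ∑ p ∈ insert 0 Z ∪ P, ‖s j p‖ = ∑ p ∈ P, ‖s j p‖ := fun j =>
          (Finset.sum_subset Finset.subset_union_right fun p _ hp => by
            rw [b2 j p hp, norm_zero]).symm
        rw [Finset.sum_congr rfl fun j _ => c1 j, Finset.sum_congr rfl fun j _ => c2 j]
        calc _ ≤ K0 * Real.sqrt X + 2 * K0 * Real.sqrt X₁ := add_le_add a4 b5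
          _ ≤ K0 * Real.sqrt X + 2 * K0 * (Real.sqrt X / 2) := by gcongr
          _ = _ := by ring
      · rw [hsum]
        exact b6
      · rw [hsum]
        refine b7.trans ?_
        rw [pow_succ, ← div_div, div_div, mul_comm, ← div_div]
        gcongr

/-- **Piece Q1.** -/
theorem stmDec : StmDec := by
  have hK0 : 0 < K0 := by
    have := Real.pi_pos
    unfold K0
    positivity
  refine ⟨2 * K0, by positivity, fun Z z h0 hZ hH hD η hη => ?_⟩
  set X : ℝ := ∑ k ∈ Z, ‖z k‖ / len k with hX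
  obtain ⟨m, hm⟩ : ∃ m : ℕ, X / 4 ^ m ≤ η := by
    have h1 : Tendsto (fun m : ℕ => X / (4 : ℝ) ^ m) atTop (𝓝 0) := by
      have h2 : Tendsto (fun m : ℕ => X * ((4 : ℝ)⁻¹) ^ m) atTop (𝓝 (X * 0)) :=
        (tendsto_pow_atTop_nhds_zero_of_lt_one (by norm_num) (by norm_num)).const_mul X
      rw [mul_zero] at h2
      refine h2.congr fun m => ?_
      rw [inv_pow, div_eq_mul_inv]
    exact ((h1.eventually_le_const hη).exists)
  obtain ⟨ι, hι, n, s, P, Z', b1, b2, b3, b4, b5, b6, b7⟩ := rounds m Z z h0 hZ hH hD X hX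
  set e := Fintype.equivFin ι with he
  have hsum : ∀ k, z k - ∑ j, nl (s (e.symm j)) (s (e.symm j)) k = (z - ∑ j, nl (s j) (s j)) k := by
    intro k
    rw [Pi.sub_apply, Finset.sum_apply, ← e.symm.sum_comp fun j => nl (s j) (s j) k]
  refine ⟨Fintype.card ι, fun j => n (e.symm j), fun j => s (e.symm j), P ∪ Z', fun j => b1 _,
    fun j p hp => b2 _ p fun h => hp (Finset.mem_union_left _ h), fun j => b3 _,
    fun j p => b4 _ p, ?_, ?_, ?_⟩
  · rw [e.symm.sum_comp fun j => ∑ p ∈ P ∪ Z', ‖s j p‖]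
    have c2 : ∀ j, ∑ p ∈ P ∪ Z', ‖s j p‖ = ∑ p ∈ P, ‖s j p‖ := fun j =>
      (Finset.sum_subset Finset.subset_union_left fun p _ hp => by
        rw [b2 j p hp, norm_zero]).symm
    rw [Finset.sum_congr rfl fun j _ => c2 j]
    exact b5
  · intro k hk
    rw [hsum]
    exact b6 k fun h => hk (Finset.mem_union_right _ h)
  · simp only [hsum]
    have c3 : ∑ k ∈ P ∪ Z', ‖(z - ∑ j, nl (s j) (s j)) k‖ / len k
        = ∑ k ∈ Z', ‖(z - ∑ j, nl (s j) (s j)) k‖ / len k :=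
      (Finset.sum_subset Finset.subset_union_right fun p _ hp => by
        rw [b6 p hp, norm_zero, zero_div]).symm
    rw [c3]
    exact b7.trans hm

end Pool.Agent.Run7.h835.GG
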